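import Pool.Agent.Helper63.Sey3.Goals
import Pool.Agent.Helper7.KS2.McD

/-!
# Packet SEY3-MCD (MP_b6b2d3_co): bounded differences
-/

set_option autoImplicit false

namespace Pool.Agent.Helper57.Sey3

open Pool.Agent.Helper41.Girth4 (Pr)

theorem pr_le_one {α : Type} [Finite α] (A : α → Prop) : Pr A ≤ 1 := by
  unfold Pr
  refine div_le_one_of_le₀ ?_ (Nat.cast_nonneg _)
  exact_mod_cast Nat.card_le_card_of_injective (Subtype.val : {x // A x} → α)
    Subtype.val_injective

theorem goalMCD : Pool.Agent.Helper63.Sey3.GoalMCD := by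
  intro I L _ inst _ _ f c lam hc hlam hf
  obtain rfl : inst = fun a b => Classical.propDecidable (a = b) := Subsingleton.elim _ _
  rcases hc.eq_or_lt with hc0 | hc0
  · rw [← hc0]
    refine (pr_le_one _).trans (le_of_eq ?_)
    simp
  rcases Nat.eq_zero_or_pos (Fintype.card I) with hn | hn
  · rw [hn]
    refine (pr_le_one _).trans (le_of_eq ?_)
    simp
  · refine Pool.Agent.Helper7.KS2.stmtMcD (I := I) (L := L) Finset.univ f c (Fintype.card I)
      hc0 hn le_rfl ?_ lam hlam
    intro ω i l
    rw [if_pos (Finset.mem_univ i)]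
    exact hf ω i l

end Pool.Agent.Helper57.Sey3
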