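import Pool.Agent.Helper63.Sey3.Goals
import Pool.Agent.Helper73.Sey.EXCH

/-!
# Packet SEY3-PICK (MP_b6b2d3_co): the first colour of a random list outside `X`
-/

set_option autoImplicit false

namespace Pool.Agent.Helper57.Sey3

open Pool.Agent.Helper41.Girth4
open Pool.Agent.Helper8.Sey (Sys.pick)

theorem goalPICK : Pool.Agent.Helper63.Sey3.GoalPICK := by
  classical
  intro q _ X A m hm hmc
  set B : Finset (Fin q) := Finset.univ.filter fun b => ¬ X b with hB
  have hcard : Nat.card {b // ¬ X b} = B.card := by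
    rw [Nat.card_eq_fintype_card, Fintype.card_subtype]
  rw [hcard] at hmc
  have hBpos : 0 < B.card := lt_of_lt_of_le hm hmc
  obtain ⟨b0, hb0⟩ := Finset.card_pos.1 hBpos
  have hpick : ∀ π : Equiv.Perm (Fin q), Sys.pick π X ∈ B := by
    intro π
    have hne : (Finset.univ.filter fun t : Fin q => ¬ X (π t)).Nonempty := by
      refine ⟨π.symm b0, Finset.mem_filter.2 ⟨Finset.mem_univ _, ?_⟩⟩
      rw [Equiv.apply_symm_apply]
      exact (Finset.mem_filter.1 hb0).2
    unfold Sys.pick
    rw [dif_pos hne]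
    have h1 := Finset.min'_mem _ hne
    exact Finset.mem_filter.2 ⟨Finset.mem_univ _, (Finset.mem_filter.1 h1).2⟩
  have hsame : ∀ a ∈ B, ∀ b ∈ B, Pr (fun π : Equiv.Perm (Fin q) => Sys.pick π X = a) =
      Pr (fun π : Equiv.Perm (Fin q) => Sys.pick π X = b) := by
    intro a ha b hb
    have ha' := (Finset.mem_filter.1 ha).2
    have hb' := (Finset.mem_filter.1 hb).2
    rw [← Pr_equiv (Equiv.mulLeft (Equiv.swap a b))
      (fun π : Equiv.Perm (Fin q) => Sys.pick π X = b)]
    apply Pr_congr
    intro π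
    have hX : ∀ c, X (Equiv.swap a b c) ↔ X c := by
      intro c
      by_cases h1 : c = a
      · rw [h1, Equiv.swap_apply_left]
        exact ⟨fun h => absurd h hb', fun h => absurd h ha'⟩
      · by_cases h2 : c = b
        · rw [h2, Equiv.swap_apply_right]
          exact ⟨fun h => absurd h ha', fun h => absurd h hb'⟩
        · rw [Equiv.swap_apply_of_ne_of_ne h1 h2]
    have h3 : Sys.pick (Equiv.mulLeft (Equiv.swap a b) π) X =
        Equiv.swap a b (Sys.pick π X) :=
      Pool.Agent.Helper73.Sey.pick_act (Equiv.swap a b) π X X hX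
    rw [h3, Equiv.swap_apply_eq_iff, Equiv.swap_apply_right]
  have hval : ∀ a ∈ B, (B.card : ℝ) * Pr (fun π : Equiv.Perm (Fin q) => Sys.pick π X = a) =
      1 := by
    intro a ha
    have h1 : Pr (fun _ : Equiv.Perm (Fin q) => True) =
        ∑ b ∈ B, Pr (fun π : Equiv.Perm (Fin q) => Sys.pick π X = b) := by
      rw [Pr_fiber (s := B) (fun _ : Equiv.Perm (Fin q) => True) (fun π => Sys.pick π X)
        (fun π _ => hpick π)]
      refine Finset.sum_congr rfl fun b _ => ?_
      apply Pr_congr
      intro π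
      exact ⟨fun h => h.2, fun h => ⟨trivial, h⟩⟩
    rw [Pr_true, Finset.sum_congr rfl fun b hb => hsame b hb a ha, Finset.sum_const,
      nsmul_eq_mul] at h1
    exact h1.symm
  have hm0 : (0 : ℝ) < m := by exact_mod_cast hm
  have hle : ∀ a, Pr (fun π : Equiv.Perm (Fin q) => Sys.pick π X = a) ≤ 1 / m := by
    intro a
    by_cases ha : a ∈ B
    · have h1 := hval a ha
      have h2 : (m : ℝ) ≤ B.card := by exact_mod_cast hmc
      have h3 := Pr_nonneg (fun π : Equiv.Perm (Fin q) => Sys.pick π X = a)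
      rw [le_div_iff₀ hm0, mul_comm]
      calc _ ≤ (B.card : ℝ) * Pr (fun π : Equiv.Perm (Fin q) => Sys.pick π X = a) :=
            mul_le_mul_of_nonneg_right h2 h3
        _ = 1 := h1
    · have h1 : Pr (fun π : Equiv.Perm (Fin q) => Sys.pick π X = a) = 0 := by
        rw [← Pr_false (α := Equiv.Perm (Fin q))]
        apply Pr_congr
        intro π
        exact ⟨fun h => ha (h ▸ hpick π), fun h => h.elim⟩
      rw [h1]
      positivity
  rw [Pr_fiber (s := A) (fun π : Equiv.Perm (Fin q) => Sys.pick π X ∈ A)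
    (fun π => Sys.pick π X) (fun π h => h)]
  calc _ ≤ ∑ a ∈ A, (1 / m : ℝ) := by
        refine Finset.sum_le_sum fun a _ => ?_
        exact (Pr_mono fun π h => h.2).trans (hle a)
    _ = (A.card : ℝ) / m := by
        rw [Finset.sum_const, nsmul_eq_mul]
        ring

end Pool.Agent.Helper57.Sey3
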